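import Pool.Agent.Run7.h717.SA.Iface
import Pool.Agent.Run7.h324.SA.C

/-!
# Project SB (MP_9a1bf0_pr, full answer: NO), helper717

`X_d = 2^d α_d` has no weak limit `X` with `E X = 1`.  PROOF.  Gaussian vectors `x_1..x_d`, `X_d = 2^d ang x`,
`T = |sum x_i|^2 / d^2`.  `E |T - 1| → 0` (`S_TLL`).  Sign flips of the `x_i` preserve the law and
the `2^d` cones tile: `E[X_d |sum x_i|^2] = E_(x,y) |sum s_i x_i|^2`, `s_i` = sign of the `i`-th coordinate of an
independent Gaussian `y` in the basis `x` (`S_SGN`).  For `i ≠ j` let `w` be a unit vector orthogonal to `y` and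
to all `x_k`, `k ≠ i,j`; applying `<·,w>` to `y = sum λ_k x_k` gives `0 = λ_i <x_i,w> + λ_j <x_j,w>`, so
`s_i s_j = - sgn <x_i,w> sgn <x_j,w>`, and `E[s_i s_j <x_i,x_j>] = - |E sgn<x,w> x|^2 = - c0 = - 2/π` (`S_PAIR`).
So `E[X_d T] = 1 - c0 (1 - 1/d)`, `E min(X_d, M) ≤ E[X_d T] + M E|T-1|`, hence `E X ≤ 1 - c0` (`S_FIN`).
-/

set_option autoImplicit false

namespace Pool.Agent.Run7.h717.SB

open MeasureTheory ProbabilityTheory Filter Topology
open scoped ENNReal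
open Pool.Agent.Run7.h717.SA
open Pool.Agent.Run7.h324.SA (cf)

/-- a sign, never zero -/
noncomputable def sg (t : ℝ) : ℝ := if 0 ≤ t then 1 else -1

/-- `(E |N(0,1)|)^2 = 2/π` -/
noncomputable def c0 : ℝ := (∫ t, |t| ∂(gaussianReal 0 1)) ^ 2

/-- CZ (15 lines) -/
def S_CZ : Prop := 0 < c0

/-- MAIN STATEMENT: negated form of Q1 -/
def MAIN2 : Prop := ¬ ∃ ν : Measure ℝ, IsProbabilityMeasure ν ∧
  (∀ f : BoundedContinuousFunction ℝ ℝ,
    Tendsto (fun d : ℕ => ∫ x, f (2 ^ d * solid x) ∂(Measure.pi fun _ : Fin d => unif d)) atTop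
      (𝓝 (∫ y, f y ∂ν))) ∧
  ∫ y, y ∂ν = 1

/-- TLL (60 lines): `sum x_i` is `sqrt d` times a standard Gaussian vector (or expand the square and use the
second moment directly); the variance of the squared norm of a standard Gaussian of `R^d` is `2 d`. -/
def S_TLL : Prop := Tendsto (fun d : ℕ => ∫ x, |‖∑ i, x i‖ ^ 2 / (d : ℝ) ^ 2 - 1| ∂(GG d d)) atTop (𝓝 0)

/-- INT (20 lines): integrability of the squared norm -/
def S_INT : Prop := ∀ d : ℕ, Integrable (fun x : Fin d → E d => ‖∑ i, x i‖ ^ 2) (GG d d)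

/-- SGN (100 lines), from LI: sign flips.  `ang x = ∫ 1(y ∈ pos x)`, `GG` is invariant under
`x ↦ (fun i => ε i • x i)` for each `ε : Fin d → {1,-1}`, and for independent `x` and almost all `y` exactly one
`ε` has `y ∈ pos (ε x)` (namely `ε i = sg (cf x y i)`). -/
def S_SGN : Prop := S_LI → ∀ d : ℕ, 2 ^ d * ∫ x, ang x * ‖∑ i, x i‖ ^ 2 ∂(GG d d) =
  ∑ i, ∑ j, ∫ p : (Fin d → E d) × E d, sg (cf p.1 p.2 i) * sg (cf p.1 p.2 j) * inner ℝ (p.1 i) (p.1 j)
    ∂((GG d d).prod (stdGaussian (E d)))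

/-- DIAG (20 lines): `sg^2 = 1`, `E |x|^2 = d`. -/
def S_DIAG : Prop := ∀ (d : ℕ) (i : Fin d), ∫ p : (Fin d → E d) × E d,
  sg (cf p.1 p.2 i) * sg (cf p.1 p.2 i) * inner ℝ (p.1 i) (p.1 i) ∂((GG d d).prod (stdGaussian (E d))) = d

/-- KK (50 lines): `<x,y> = <x,w><y,w> + <Qx,Qy>`, the second term is killed by the reflection of `x` that fixes `w`
and negates its orthogonal complement (`stdGaussian` is invariant); `<x,w>` is `N(0,1)`. -/
def S_KK : Prop := ∀ (d : ℕ) (w : E d), ‖w‖ = 1 →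
  ∫ p : E d × E d, sg (inner ℝ p.1 w) * sg (inner ℝ p.2 w) * inner ℝ p.1 p.2
    ∂((stdGaussian (E d)).prod (stdGaussian (E d))) = c0

/-- RES (40 lines): resampling two vectors preserves the law (check on boxes, `Measure.pi_eq`). -/
def S_RES : Prop := ∀ (d : ℕ) (i j : Fin d), i ≠ j →
  ((GG d d).prod ((stdGaussian (E d)).prod (stdGaussian (E d)))).map
    (fun p => Function.update (Function.update p.1 i p.2.1) j p.2.2) = GG d d

/-- WW (60 lines): the pointwise identity.  `w` is orthogonal to `y` and to all `x k`, `k ≠ i,j`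
(`d - 1` vectors); `<x_i,w>` and `<x_j,w>` are nonzero by independence of `x` and since
`y` is not in the span of the `x k`, `k ≠ i,j` (a condition on `x`, `y`: `cf x y i ≠ 0`). -/
def S_WW : Prop := ∀ (d : ℕ) (i j : Fin d), i ≠ j → ∀ (x : Fin d → E d) (y w : E d),
  LinearIndependent ℝ x → cf x y i ≠ 0 → inner ℝ y w = 0 → (∀ k, k ≠ i → k ≠ j → inner ℝ (x k) w = 0) →
  inner ℝ (x i) w ≠ 0 → inner ℝ (x j) w ≠ 0 →
  sg (cf x y i) * sg (cf x y j) = - (sg (inner ℝ (x i) w) * sg (inner ℝ (x j) w))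

/-- PAIR (100 lines), from LI, KK, RES, WW: Fubini with RES; for fixed `x`, `y` choose a unit vector `w` orthogonal
to `y` and to all `x k`, `k ≠ i,j`; for almost all `(a,b)` the integrand is `- sg<a,w> sg<b,w> <a,b>`
(`cf = 0` is a null set: `y` in a hyperplane). -/
def S_PAIR : Prop := S_LI → S_KK → S_RES → S_WW → ∀ (d : ℕ) (i j : Fin d), i ≠ j →
  ∫ p : (Fin d → E d) × E d, sg (cf p.1 p.2 i) * sg (cf p.1 p.2 j) * inner ℝ (p.1 i) (p.1 j)
    ∂((GG d d).prod (stdGaussian (E d))) = - c0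

/-- FIN (80 lines), from everything. `f_M(y) = max 0 (min y M)`. -/
def S_FIN : Prop := S_SPH → S_CZ → S_TLL → S_INT →
  (∀ d : ℕ, 2 ^ d * ∫ x, ang x * ‖∑ i, x i‖ ^ 2 ∂(GG d d) = (d : ℝ) * d - d * (d - 1) * c0) → MAIN2

end Pool.Agent.Run7.h717.SB
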